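import Pool.Agent.Helper65_PV.Stmts

/-!
Squad PV, module MO: inclusion and equal data give equality.
-/

set_option autoImplicit false

open MeasureTheory Metric Set Filter Topology

namespace PV.H20

/-- A unit vector orthogonal to a given vector. -/
theorem exists_unit_orth_one {n : ℕ} (hn : 2 ≤ n) (a : E n) :
    ∃ u : E n, ‖u‖ = 1 ∧ inner ℝ u a = 0 := by
  classical
  set W : Submodule ℝ (E n) := Submodule.span ℝ {a} with hW
  have h1 : Module.finrank ℝ W ≤ 1 := by
    have h := finrank_span_le_card (R := ℝ) (M := E n) ({a} : Set (E n))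
    refine h.trans ?_
    rw [Set.toFinset_singleton, Finset.card_singleton]
  have h2 : Module.finrank ℝ W + Module.finrank ℝ (Wᗮ : Submodule ℝ (E n)) = n := by
    have h := Submodule.finrank_add_finrank_orthogonal W
    rw [finrank_euclideanSpace_fin] at h
    exact h
  have h3 : (Wᗮ : Submodule ℝ (E n)) ≠ ⊥ := by
    intro h
    rw [h, finrank_bot] at h2
    omega
  obtain ⟨v, hv, hv0⟩ := Submodule.exists_mem_ne_zero_of_ne_bot h3
  have ha : inner ℝ v a = 0 := by
    rw [real_inner_comm]
    exact (Submodule.mem_orthogonal W v).1 hv a (Submodule.subset_span (by simp))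
  refine ⟨(‖v‖⁻¹ : ℝ) • v, ?_, ?_⟩
  · rw [norm_smul, norm_inv, norm_norm]
    exact inv_mul_cancel₀ (norm_ne_zero_iff.2 hv0)
  · rw [real_inner_smul_left, ha, mul_zero]

/-- The hyperplane orthogonal to `w`. -/
noncomputable abbrev Hyp {n : ℕ} (w : E n) : Submodule ℝ (E n) := (Submodule.span ℝ {w})ᗮ

theorem finrank_hyp {n : ℕ} {w : E n} (hw : ‖w‖ = 1) :
    Module.finrank ℝ (Hyp w) + 1 = n := by
  have h := Submodule.finrank_add_finrank_orthogonal (Submodule.span ℝ {w} : Submodule ℝ (E n))
  rw [finrank_euclideanSpace_fin, finrank_span_singleton (norm_pos_iff.1 (by rw [hw]; norm_num))]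
    at h
  change Module.finrank ℝ ((Submodule.span ℝ {w} : Submodule ℝ (E n))ᗮ : Submodule ℝ (E n)) + 1 = n
  omega

theorem proj_mem {n : ℕ} {w : E n} (hw : ‖w‖ = 1) (x : E n) : proj w x ∈ Hyp w := by
  rw [Submodule.mem_orthogonal_singleton_iff_inner_right]
  unfold proj
  rw [inner_sub_right, real_inner_smul_right, real_inner_self_eq_norm_sq, hw, real_inner_comm]
  ring

/-- The projection as a map to the hyperplane. -/
noncomputable def P {n : ℕ} {w : E n} (hw : ‖w‖ = 1) (x : E n) : Hyp w := ⟨proj w x, proj_mem hw x⟩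

theorem continuous_P {n : ℕ} {w : E n} (hw : ‖w‖ = 1) : Continuous (P hw) := by
  unfold P
  refine Continuous.subtype_mk ?_ _
  unfold proj
  fun_prop

theorem hausdorff_proj {n : ℕ} {w : E n} (hw : ‖w‖ = 1) (S : Set (E n)) :
    Measure.hausdorffMeasure ((n : ℝ) - 1) (proj w '' S) =
      (Measure.hausdorffMeasure ((Module.finrank ℝ (Hyp w) : ℕ) : ℝ) : Measure (Hyp w))
        (P hw '' S) := by
  have h1 : proj w '' S = (Subtype.val : Hyp w → E n) '' (P hw '' S) := by
    rw [image_image]
    rfl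
  have h2 : ((n : ℝ) - 1) = ((Module.finrank ℝ (Hyp w) : ℕ) : ℝ) := by
    have := finrank_hyp hw
    have h3 : ((Module.finrank ℝ (Hyp w) : ℕ) : ℝ) + 1 = n := by exact_mod_cast this
    linarith
  rw [h1, h2]
  exact isometry_subtype_coe.hausdorffMeasure_image (Or.inl (Nat.cast_nonneg _)) _

theorem hausdorff_proj_lt_top {n : ℕ} {w : E n} (hw : ‖w‖ = 1) {S : Set (E n)}
    (hS : IsCompact S) : Measure.hausdorffMeasure ((n : ℝ) - 1) (proj w '' S) < ⊤ := by
  rw [hausdorff_proj hw]
  exact (hS.image (continuous_P hw)).measure_lt_top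

theorem hausdorff_proj_ball_pos {n : ℕ} {w : E n} (hw : ‖w‖ = 1) (q : E n) {r : ℝ} (hr : 0 < r) :
    0 < Measure.hausdorffMeasure ((n : ℝ) - 1) (proj w '' ball q r) := by
  rw [hausdorff_proj hw]
  have h1 : ball (P hw q) r ⊆ P hw '' ball q r := by
    intro v hv
    refine ⟨(v : E n) + (inner ℝ q w : ℝ) • w, ?_, ?_⟩
    · rw [mem_ball, dist_eq_norm] at hv ⊢
      have h2 : (v : E n) + (inner ℝ q w : ℝ) • w - q = ((v - P hw q : Hyp w) : E n) := by
        change (v : E n) + (inner ℝ q w : ℝ) • w - q = (v : E n) - (q - (inner ℝ q w : ℝ) • w)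
        abel
      rw [h2]
      exact hv
    · apply Subtype.ext
      change ((v : E n) + (inner ℝ q w : ℝ) • w) -
        (inner ℝ ((v : E n) + (inner ℝ q w : ℝ) • w) w : ℝ) • w = (v : E n)
      have h3 : inner ℝ (v : E n) w = 0 := by
        rw [real_inner_comm]
        exact Submodule.mem_orthogonal_singleton_iff_inner_right.1 v.2
      rw [inner_add_left, real_inner_smul_left, real_inner_self_eq_norm_sq, hw, h3]
      simp
  exact lt_of_lt_of_le (isOpen_ball.measure_pos _ ⟨_, mem_ball_self hr⟩) (measure_mono h1)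

theorem mo : MOStmt := by
  intro n hn K L hKc hKv hKf hLc hLv hLf hSD hKL
  by_contra hne
  obtain ⟨y, hyL, hyK⟩ : ∃ y ∈ L, y ∉ K := by
    by_contra h
    push Not at h
    exact hne (Subset.antisymm hKL h)
  obtain ⟨f, a0, hf1, hf2⟩ := geometric_hahn_banach_point_closed hKv hKc.isClosed hyK
  set a : E n := (InnerProductSpace.toDual ℝ (E n)).symm f with ha
  have hfa : ∀ v : E n, f v = inner ℝ a v := by
    intro v
    rw [ha, InnerProductSpace.toDual_symm_apply]
  obtain ⟨w, hw, hwa⟩ := exists_unit_orth_one hn a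
  have hfproj : ∀ x : E n, f (proj w x) = f x := by
    intro x
    unfold proj
    rw [map_sub, map_smul, hfa w, real_inner_comm w a, hwa, smul_zero, sub_zero]
  -- a ball in L on the side of y
  obtain ⟨q, hq⟩ := hLf
  obtain ⟨t, ht0, ht1, htf⟩ : ∃ t : ℝ, 0 < t ∧ t ≤ 1 ∧ f (y + t • (q - y)) < a0 := by
    have hcont : Continuous fun t : ℝ => f (y + t • (q - y)) := by fun_prop
    have h0 : f (y + (0 : ℝ) • (q - y)) < a0 := by rw [zero_smul, add_zero]; exact hf1
    have hev : ∀ᶠ t in 𝓝 (0 : ℝ), f (y + t • (q - y)) < a0 :=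
      (hcont.tendsto 0).eventually_lt_const h0
    obtain ⟨ε, hε, hball⟩ := Metric.eventually_nhds_iff.1 hev
    refine ⟨min (ε / 2) 1, lt_min (by positivity) one_pos, min_le_right _ _, ?_⟩
    apply hball
    rw [dist_zero_right, Real.norm_eq_abs, abs_of_pos (lt_min (by positivity) one_pos)]
    exact lt_of_le_of_lt (min_le_left _ _) (by linarith)
  have hq' : y + t • (q - y) ∈ interior L := hLv.add_smul_sub_mem_interior hyL hq ⟨ht0, ht1⟩
  set q' : E n := y + t • (q - y) with hq'def
  have hopen : IsOpen (interior L ∩ {x : E n | f x < a0}) :=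
    isOpen_interior.inter (isOpen_lt f.continuous continuous_const)
  obtain ⟨r, hr, hball⟩ := Metric.isOpen_iff.1 hopen q' ⟨hq', htf⟩
  have hb := (hSD w hw).1
  unfold brightness at hb
  have hpos := hausdorff_proj_ball_pos hw q' hr
  have hfin := hausdorff_proj_lt_top hw hKc
  have hmeas : MeasurableSet (proj w '' K) := by
    refine (hKc.image ?_).measurableSet
    unfold proj
    fun_prop
  have hdisj : Disjoint (proj w '' ball q' r) (proj w '' K) := by
    rw [Set.disjoint_left]
    rintro _ ⟨x, hx, rfl⟩ ⟨x2, hx2, h2⟩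
    have h3 : f x < a0 := (hball hx).2
    have h4 := hf2 x2 hx2
    rw [← hfproj x, ← h2, hfproj x2] at h3
    linarith
  have hsub : proj w '' ball q' r ∪ proj w '' K ⊆ proj w '' L := by
    refine union_subset (image_mono ?_) (image_mono hKL)
    exact fun x hx => interior_subset (hball hx).1
  have h5 := measure_mono (μ := (Measure.hausdorffMeasure ((n : ℝ) - 1) : Measure (E n))) hsub
  rw [measure_union hdisj hmeas, ← hb] at h5
  have h6 : Measure.hausdorffMeasure ((n : ℝ) - 1) (proj w '' K) <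
      Measure.hausdorffMeasure ((n : ℝ) - 1) (proj w '' ball q' r) +
        Measure.hausdorffMeasure ((n : ℝ) - 1) (proj w '' K) := by
    rw [add_comm]
    exact ENNReal.lt_add_right hfin.ne hpos.ne'
  exact absurd h5 (not_le.2 h6)

end PV.H20
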