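import Pool.Agent.Helper65_PV.Stmts

/-!
Squad PV, module UD: the sets `U` are dense.
-/

set_option autoImplicit false

open MeasureTheory Metric Set Filter Topology

namespace PV.H20

/-- A point of the limit body: limits of points of the bodies. -/
theorem mem_of_tendsto_points {n : ℕ} {L : ℕ → ConvexBody (E n)} {L' : ConvexBody (E n)}
    (hL : Tendsto L atTop (𝓝 L')) {w : ℕ → E n} {w' : E n} (hw : ∀ j, w j ∈ (L j : Set (E n)))
    (hlim : Tendsto w atTop (𝓝 w')) : w' ∈ (L' : Set (E n)) := by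
  have h0 : Tendsto (fun j => dist (L j) L') atTop (𝓝 0) := (tendsto_iff_dist_tendsto_zero).1 hL
  have h1 : Tendsto (fun j => infDist (w j) (L' : Set (E n))) atTop
      (𝓝 (infDist w' (L' : Set (E n)))) :=
    ((continuous_infDist_pt (L' : Set (E n))).tendsto w').comp hlim
  have h2 : Tendsto (fun j => infDist (w j) (L' : Set (E n))) atTop (𝓝 0) := by
    refine squeeze_zero (fun j => infDist_nonneg) (fun j => ?_) h0
    exact infDist_le_hausdorffDist_of_mem (hw j) ConvexBody.hausdorffEDist_ne_top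
  have h3 : infDist w' (L' : Set (E n)) = 0 := tendsto_nhds_unique h1 h2
  exact (L'.isClosed.mem_iff_infDist_zero L'.nonempty).2 h3

theorem exists_unit_orth {n : ℕ} (hn : 3 ≤ n) (a b : E n) :
    ∃ u : E n, ‖u‖ = 1 ∧ inner ℝ u a = 0 ∧ inner ℝ u b = 0 := by
  classical
  set W : Submodule ℝ (E n) := Submodule.span ℝ {a, b} with hW
  have h1 : Module.finrank ℝ W ≤ 2 := by
    have h := finrank_span_le_card (R := ℝ) (M := E n) ({a, b} : Set (E n))
    refine h.trans ?_
    rw [Set.toFinset_insert, Set.toFinset_singleton]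
    exact Finset.card_le_two
  have h2 : Module.finrank ℝ W + Module.finrank ℝ (Wᗮ : Submodule ℝ (E n)) = n := by
    have h := Submodule.finrank_add_finrank_orthogonal W
    rw [finrank_euclideanSpace_fin] at h
    exact h
  have h3 : (Wᗮ : Submodule ℝ (E n)) ≠ ⊥ := by
    intro h
    rw [h, finrank_bot] at h2
    omega
  obtain ⟨v, hv, hv0⟩ := Submodule.exists_mem_ne_zero_of_ne_bot h3
  have ha : inner ℝ v a = 0 := by
    rw [real_inner_comm]
    exact (Submodule.mem_orthogonal W v).1 hv a (Submodule.subset_span (by simp))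
  have hb : inner ℝ v b = 0 := by
    rw [real_inner_comm]
    exact (Submodule.mem_orthogonal W v).1 hv b (Submodule.subset_span (by simp))
  refine ⟨(‖v‖⁻¹ : ℝ) • v, ?_, ?_, ?_⟩
  · rw [norm_smul, norm_inv, norm_norm]
    exact inv_mul_cancel₀ (norm_ne_zero_iff.2 hv0)
  · rw [real_inner_smul_left, ha, mul_zero]
  · rw [real_inner_smul_left, hb, mul_zero]

theorem interior_lt_max {n : ℕ} {K : Set (E n)} {ν x' p : E n} (hν : ‖ν‖ = 1)
    (hmax : ∀ y ∈ K, inner ℝ y ν ≤ inner ℝ x' ν) (hp : p ∈ interior K) :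
    inner ℝ p ν < inner ℝ x' ν := by
  obtain ⟨r, hr, hball⟩ := Metric.isOpen_iff.1 isOpen_interior p hp
  have h1 : p + (r / 2) • ν ∈ K := by
    apply interior_subset
    apply hball
    rw [mem_ball, dist_eq_norm, add_sub_cancel_left, norm_smul, hν, mul_one, Real.norm_eq_abs,
      abs_of_pos (by positivity)]
    linarith
  have h2 := hmax _ h1
  rw [inner_add_left, real_inner_smul_left, real_inner_self_eq_norm_sq, hν] at h2
  linarith

theorem ud (hKE : KEStmt) (hBL : BLStmt) (hSC : SCStmt) : UDStmt := by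
  intro n hn ν hν m
  rw [Metric.dense_iff]
  intro K₀ e he
  obtain ⟨K', hd, hsc, hfull⟩ := hSC n K₀ (e / 2) (by positivity)
  by_contra hcon
  rw [Set.not_nonempty_iff_eq_empty] at hcon
  have hnot : ∀ K : ConvexBody (E n), dist K K₀ < e → K ∉ U n ν m := by
    intro K hK hKU
    have : K ∈ ball K₀ e ∩ U n ν m := ⟨hK, hKU⟩
    rw [hcon] at this
    exact this
  -- the maximiser
  have hcont : Continuous fun x : E n => inner ℝ x ν := by fun_prop
  obtain ⟨x', hx'K, hx'⟩ := K'.isCompact.exists_isMaxOn K'.nonempty hcont.continuousOn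
  have hmax : ∀ y ∈ (K' : Set (E n)), inner ℝ y ν ≤ inner ℝ x' ν := fun y hy => hx' hy
  obtain ⟨p, hp⟩ := hfull
  have hpK : p ∈ (K' : Set (E n)) := interior_subset hp
  have hlt := interior_lt_max hν hmax hp
  set h : ℝ := inner ℝ x' ν with hh
  set δ : ℝ := h - inner ℝ p ν with hδ
  have hδ0 : 0 < δ := by rw [hδ]; linarith
  have huniq : ∀ y ∈ (K' : Set (E n)), inner ℝ y ν = h → y = x' := by
    intro y hy hyh
    by_contra hne
    have hm := hsc hy hx'K hne (a := 1 / 2) (b := 1 / 2) (by norm_num) (by norm_num) (by norm_num)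
    have h1 := interior_lt_max hν hmax hm
    rw [inner_add_left, real_inner_smul_left, real_inner_smul_left, hyh] at h1
    have : (1 / 2 : ℝ) * h + 1 / 2 * h < h := h1
    linarith
  -- a bound
  obtain ⟨D, hD0, hD⟩ : ∃ D : ℝ, 0 < D ∧ ∀ x ∈ (K' : Set (E n)), ‖p - x‖ ≤ D := by
    obtain ⟨D, hD0, hD⟩ := K'.isBounded.exists_pos_norm_le
    refine ⟨D + D, by positivity, fun x hx => ?_⟩
    calc ‖p - x‖ ≤ ‖p‖ + ‖x‖ := norm_sub_le _ _
      _ ≤ D + D := add_le_add (hD p hpK) (hD x hx)
  obtain ⟨η, hη0, hη1, hη2⟩ : ∃ η : ℝ, 0 < η ∧ η < 1 ∧ η * D < e / 2 := by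
    refine ⟨min (1 / 2) (e / (4 * D)), lt_min (by norm_num) (by positivity),
      lt_of_le_of_lt (min_le_left _ _) (by norm_num), ?_⟩
    calc min (1 / 2) (e / (4 * D)) * D ≤ (e / (4 * D)) * D :=
          mul_le_mul_of_nonneg_right (min_le_right _ _) hD0.le
      _ = e / 4 := by field_simp
      _ < e / 2 := by linarith
  set t : ℕ → ℝ := fun j => η / ((j : ℝ) + 1) with ht
  have ht0 : ∀ j, 0 < t j := fun j => by rw [ht]; positivity
  have htη : ∀ j, t j ≤ η := fun j => by
    rw [ht]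
    have : (1 : ℝ) ≤ (j : ℝ) + 1 := by linarith [(Nat.cast_nonneg j : (0 : ℝ) ≤ j)]
    exact div_le_self hη0.le this
  have ht1 : ∀ j, t j < 1 := fun j => lt_of_le_of_lt (htη j) hη1
  have htlim : Tendsto t atTop (𝓝 0) := by
    have h1 := tendsto_one_div_add_atTop_nhds_zero_nat (𝕜 := ℝ)
    have h2 := h1.const_mul η
    rw [mul_zero] at h2
    refine h2.congr (fun j => ?_)
    rw [ht]; ring
  set c : ℕ → ℝ := fun j => h - t j * δ with hc
  set z : ℕ → E n := fun j => x' + t j • (p - x') with hz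
  have hzint : ∀ j, z j ∈ interior (K' : Set (E n)) := fun j =>
    K'.convex.add_smul_sub_mem_interior hx'K hp ⟨ht0 j, (ht1 j).le⟩
  have hzc : ∀ j, inner ℝ (z j) ν = c j := by
    intro j
    simp only [hz, hc, inner_add_left, real_inner_smul_left, inner_sub_left]
    rw [hδ]; ring
  -- the bodies
  have hcl : ∀ j, IsClosed {x : E n | inner ℝ x ν ≤ c j} := fun j =>
    isClosed_le hcont continuous_const
  have hcv : ∀ j, Convex ℝ {x : E n | inner ℝ x ν ≤ c j} := by
    intro j x hx y hy a b ha hb hab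
    change inner ℝ x ν ≤ c j at hx
    change inner ℝ y ν ≤ c j at hy
    change inner ℝ (a • x + b • y) ν ≤ c j
    rw [inner_add_left, real_inner_smul_left, real_inner_smul_left]
    calc a * inner ℝ x ν + b * inner ℝ y ν ≤ a * c j + b * c j := by gcongr
      _ = c j := by rw [← add_mul, hab, one_mul]
  set Kb : ℕ → ConvexBody (E n) := fun j =>
    ⟨(K' : Set (E n)) ∩ {x | inner ℝ x ν ≤ c j}, K'.convex.inter (hcv j),
      K'.isCompact.inter_right (hcl j), ⟨z j, interior_subset (hzint j), (hzc j).le⟩⟩ with hKb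
  have hKbcoe : ∀ j, (Kb j : Set (E n)) = (K' : Set (E n)) ∩ {x | inner ℝ x ν ≤ c j} :=
    fun j => rfl
  have hKbfull : ∀ j, Full (Kb j : Set (E n)) := by
    intro j
    refine ⟨p, ?_⟩
    rw [hKbcoe, interior_inter]
    refine ⟨hp, ?_⟩
    have hopen : IsOpen {x : E n | inner ℝ x ν < c j} := isOpen_lt hcont continuous_const
    have hsub : {x : E n | inner ℝ x ν < c j} ⊆ {x : E n | inner ℝ x ν ≤ c j} :=
      Set.ofPred_subset_ofPred.2 fun x hx => le_of_lt hx
    refine interior_maximal hsub hopen ?_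
    change inner ℝ p ν < h - t j * δ
    have : t j * δ < δ := by nlinarith [ht1 j]
    linarith
  have hdist : ∀ j, dist (Kb j) K₀ < e := by
    intro j
    have h1 : dist K' (Kb j) ≤ t j * D := by
      rw [← ConvexBody.hausdorffDist_coe]
      refine hausdorffDist_le_of_mem_dist (by have := ht0 j; positivity) ?_ ?_
      · intro x hx
        refine ⟨x + t j • (p - x), ?_, ?_⟩
        · rw [hKbcoe]
          refine ⟨interior_subset (K'.convex.add_smul_sub_mem_interior hx hp
            ⟨ht0 j, (ht1 j).le⟩), ?_⟩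
          change inner ℝ (x + t j • (p - x)) ν ≤ h - t j * δ
          rw [inner_add_left, real_inner_smul_left, inner_sub_left]
          have h2 := hmax x hx
          have h3 : (1 - t j) * inner ℝ x ν ≤ (1 - t j) * h :=
            mul_le_mul_of_nonneg_left h2 (by linarith [ht1 j])
          rw [hδ]
          nlinarith
        · rw [dist_eq_norm, show x - (x + t j • (p - x)) = -(t j • (p - x)) by abel, norm_neg,
            norm_smul, Real.norm_eq_abs, abs_of_pos (ht0 j)]
          exact mul_le_mul_of_nonneg_left (hD x hx) (ht0 j).le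
      · intro x hx
        refine ⟨x, ?_, by rw [dist_self]; have := ht0 j; positivity⟩
        rw [hKbcoe] at hx
        exact hx.1
    calc dist (Kb j) K₀ ≤ dist (Kb j) K' + dist K' K₀ := dist_triangle _ _ _
      _ = dist K' (Kb j) + dist K₀ K' := by rw [dist_comm (Kb j) K', dist_comm K' K₀]
      _ ≤ t j * D + dist K₀ K' := by gcongr
      _ ≤ η * D + dist K₀ K' := by gcongr; exact htη j
      _ < e := by linarith
  -- the bad bodies
  have hbad : ∀ j, ∃ L : ConvexBody (E n), Full (L : Set (E n)) ∧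
      (L : Set (E n)) ⊆ closedBall 0 (m : ℝ) ∧ SameData (Kb j : Set (E n)) (L : Set (E n)) ∧
      ∀ x ∈ (L : Set (E n)), infDist x (Kb j : Set (E n)) < 1 / ((m : ℝ) + 1) →
        ∃ y ∈ (Kb j : Set (E n)), inner ℝ x ν + 1 / ((m : ℝ) + 1) ≤ inner ℝ y ν := by
    intro j
    have h1 := hnot (Kb j) (hdist j)
    by_contra h2
    apply h1
    refine ⟨hKbfull j, fun L hL hLb hLs => ?_⟩
    by_contra h3
    apply h2
    refine ⟨L, hL, hLb, hLs, fun x hx hxd => ?_⟩
    by_contra h4
    apply h3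
    refine ⟨x, hx, hxd, fun y hy => ?_⟩
    by_contra h5
    exact h4 ⟨y, hy, not_lt.1 h5⟩
  choose L hLfull hLball hLsame hLbad using hbad
  obtain ⟨L', φ, hφ, hLlim, -⟩ := hBL n m L hLball
  -- all lines through x' orthogonal to ν meet L'
  have hlines : ∀ u : E n, ‖u‖ = 1 → inner ℝ u ν = 0 → ∃ s : ℝ, x' + s • u ∈ (L' : Set (E n)) := by
    intro u hu huν
    have hk : ∀ j, ∃ x ∈ (K' : Set (E n)), inner ℝ x ν = c (φ j) ∧
        ∃ s : ℝ, x + s • u ∈ (L (φ j) : Set (E n)) := fun j =>
      hKE n (by omega) (K' : Set (E n)) (L (φ j) : Set (E n)) ν u (c (φ j)) K'.isCompact hsc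
        ⟨z (φ j), hzint _, hzc _⟩ (L (φ j)).isCompact (L (φ j)).convex (hLfull _) hν hu huν
        (by have := hLsame (φ j); rw [hKbcoe] at this; exact this)
    choose x hxK hxc s hs using hk
    have hcomp : IsCompact ((K' : Set (E n)) ×ˢ closedBall (0 : E n) (m : ℝ)) :=
      K'.isCompact.prod (isCompact_closedBall _ _)
    obtain ⟨⟨x1, w1⟩, hmem, ψ, hψ, hlim⟩ := hcomp.tendsto_subseq
      (x := fun j => (x j, x j + s j • u)) (fun j => ⟨hxK j, hLball _ (hs j)⟩)
    have hl1 : Tendsto (fun j => x (ψ j)) atTop (𝓝 x1) :=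
      ((continuous_fst.tendsto _).comp hlim)
    have hl2 : Tendsto (fun j => x (ψ j) + s (ψ j) • u) atTop (𝓝 w1) :=
      ((continuous_snd.tendsto _).comp hlim)
    have hclim : Tendsto (fun j => c (φ (ψ j))) atTop (𝓝 h) := by
      have h1 : Tendsto (fun j => t (φ (ψ j))) atTop (𝓝 0) :=
        htlim.comp (hφ.tendsto_atTop.comp hψ.tendsto_atTop)
      have h2 := (h1.mul_const δ).const_sub h
      rw [zero_mul, sub_zero] at h2
      exact h2
    have hx1 : inner ℝ x1 ν = h := by
      have h1 : Tendsto (fun j => inner ℝ (x (ψ j)) ν) atTop (𝓝 (inner ℝ x1 ν)) :=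
        (hcont.tendsto x1).comp hl1
      have h2 : (fun j => inner ℝ (x (ψ j)) ν) = fun j => c (φ (ψ j)) :=
        funext fun j => hxc (ψ j)
      rw [h2] at h1
      exact tendsto_nhds_unique h1 hclim
    have hx1' : x1 = x' := huniq x1 hmem.1 hx1
    have hw1 : w1 ∈ (L' : Set (E n)) :=
      mem_of_tendsto_points (L := fun j => L (φ (ψ j))) (hLlim.comp hψ.tendsto_atTop)
        (fun j => hs (ψ j)) hl2
    have hdiff : Tendsto (fun j => s (ψ j) • u) atTop (𝓝 (w1 - x1)) := by
      have h1 := hl2.sub hl1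
      refine h1.congr (fun j => ?_)
      rw [add_sub_cancel_left]
    have hsl : Tendsto (fun j => s (ψ j)) atTop (𝓝 (inner ℝ (w1 - x1) u)) := by
      have hc2 : Continuous fun y : E n => inner ℝ y u := by fun_prop
      have h1 := (hc2.tendsto (w1 - x1)).comp hdiff
      refine h1.congr (fun j => ?_)
      simp only [Function.comp]
      rw [real_inner_smul_left, real_inner_self_eq_norm_sq, hu]
      ring
    have hdiff2 : Tendsto (fun j => s (ψ j) • u) atTop (𝓝 ((inner ℝ (w1 - x1) u : ℝ) • u)) :=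
      hsl.smul_const u
    have heq : w1 - x1 = (inner ℝ (w1 - x1) u : ℝ) • u := tendsto_nhds_unique hdiff hdiff2
    refine ⟨inner ℝ (w1 - x1) u, ?_⟩
    rw [← heq, hx1', add_sub_cancel]
    exact hw1
  -- x' lies in L'
  have hx'L : x' ∈ (L' : Set (E n)) := by
    by_contra hnotin
    obtain ⟨f, a0, hf1, hf2⟩ := geometric_hahn_banach_point_closed L'.convex L'.isClosed hnotin
    set a : E n := (InnerProductSpace.toDual ℝ (E n)).symm f with ha
    have hfa : ∀ v : E n, f v = inner ℝ a v := by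
      intro v
      rw [ha, InnerProductSpace.toDual_symm_apply]
    obtain ⟨u, hu, huν, hua⟩ := exists_unit_orth hn ν a
    obtain ⟨s, hs⟩ := hlines u hu huν
    have h1 := hf2 _ hs
    have h2 : f (x' + s • u) = f x' := by
      rw [map_add, map_smul, hfa u, real_inner_comm, hua, smul_zero, add_zero]
    rw [h2] at h1
    linarith
  -- contradiction
  have hm0 : 0 < 1 / ((m : ℝ) + 1) := by positivity
  set ρ : ℝ := 1 / ((m : ℝ) + 1) / 3 with hρ
  have hρ0 : 0 < ρ := by positivity
  have hev1 : ∀ᶠ j in atTop, dist (L (φ j)) L' < ρ :=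
    (tendsto_iff_dist_tendsto_zero.1 hLlim).eventually_lt_const hρ0
  have hev2 : ∀ᶠ j in atTop, t (φ j) * D < ρ := by
    have h1 := (htlim.comp hφ.tendsto_atTop).mul_const D
    rw [zero_mul] at h1
    exact h1.eventually_lt_const hρ0
  obtain ⟨j, hj1, hj2⟩ := (hev1.and hev2).exists
  obtain ⟨w, hwL, hwd⟩ := exists_dist_lt_of_hausdorffDist_lt' (s := (L (φ j) : Set (E n)))
    hx'L (by rw [ConvexBody.hausdorffDist_coe]; exact hj1) ConvexBody.hausdorffEDist_ne_top
  have hinf : infDist w (Kb (φ j) : Set (E n)) < 1 / ((m : ℝ) + 1) := by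
    have hzK : z (φ j) ∈ (Kb (φ j) : Set (E n)) := by
      rw [hKbcoe]
      exact ⟨interior_subset (hzint _), (hzc _).le⟩
    have h1 : dist x' (z (φ j)) ≤ t (φ j) * D := by
      rw [dist_eq_norm]
      simp only [hz]
      rw [show x' - (x' + t (φ j) • (p - x')) = -(t (φ j) • (p - x')) by abel, norm_neg,
        norm_smul, Real.norm_eq_abs, abs_of_pos (ht0 _)]
      exact mul_le_mul_of_nonneg_left (hD x' hx'K) (ht0 _).le
    calc infDist w (Kb (φ j) : Set (E n)) ≤ dist w (z (φ j)) := infDist_le_dist_of_mem hzK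
      _ ≤ dist w x' + dist x' (z (φ j)) := dist_triangle _ _ _
      _ < ρ + ρ := by linarith
      _ < 1 / ((m : ℝ) + 1) := by rw [hρ]; linarith
  obtain ⟨y, hy, hyle⟩ := hLbad (φ j) w hwL hinf
  have hyh : inner ℝ y ν ≤ h := by
    rw [hKbcoe] at hy
    exact hmax y hy.1
  have hwh : h - ρ ≤ inner ℝ w ν := by
    have h1 : |inner ℝ (w - x') ν| ≤ ‖w - x'‖ * ‖ν‖ := abs_real_inner_le_norm _ _
    rw [hν, mul_one, ← dist_eq_norm, inner_sub_left] at h1
    have h2 := abs_le.1 h1
    linarith [h2.1]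
  rw [hρ] at hwh
  linarith

end PV.H20
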